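import Mathlib

/-!
Counting points of the open sets `f(x_r) ∏ (x_i - h_i(x_(i-1))) ≠ 0` over finite fields.
-/

set_option autoImplicit false

open Polynomial

namespace Pool.Agent.TH943.IP

section roots

variable {κ : Type} [Field κ] [Fintype κ] (L : Type) [Field L] [Fintype L] [Algebra κ L]

open Classical in
/-- the indicator of the zeros of `g` -/
noncomputable def delta (g : κ[X]) (x : L) : ℤ := if aeval x g = 0 then 1 else 0

/-- the value for an irreducible polynomial of degree `e` over the extension of degree `m` -/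
def NN (e m : ℕ) : ℤ := if e ∣ m then e else 0

omit [Fintype L] [Fintype κ] in
theorem dvd_of_root {g : κ[X]} (hg : Irreducible g) [FiniteDimensional κ L] {x : L}
    (hx : aeval x g = 0) : g.natDegree ∣ Module.finrank κ L := by
  have hint : IsIntegral κ x := Algebra.IsIntegral.isIntegral x
  have h1 : minpoly κ x ∣ g := minpoly.dvd κ x hx
  have h2 : Associated (minpoly κ x) g := (minpoly.irreducible hint).associated_of_dvd hg h1
  rw [← natDegree_eq_of_degree_eq (degree_eq_degree_of_associated h2)]
  exact minpoly.degree_dvd hint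

theorem sum_delta {g : κ[X]} (hg : Irreducible g) :
    ∑ x : L, delta L g x = NN g.natDegree (Module.finrank κ L) := by
  classical
  have : FiniteDimensional κ L := Module.Finite.of_finite
  unfold NN
  split_ifs with h
  · have h1 : g ∣ X ^ (Nat.card κ) ^ (Module.finrank κ L) - X :=
      (Irreducible.natDegree_dvd_iff_dvd_X_pow_card_pow_sub_X hg).1 h
    have hcard : (Nat.card κ) ^ (Module.finrank κ L) = Fintype.card L := by
      rw [Nat.card_eq_fintype_card, ← Module.card_eq_pow_finrank]
    rw [hcard] at h1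
    have h2 : g.map (algebraMap κ L) ∣ X ^ Fintype.card L - X := by
      have h3 := Polynomial.map_dvd (algebraMap κ L) h1
      rwa [Polynomial.map_sub, Polynomial.map_pow, Polynomial.map_X] at h3
    have hne : (X ^ Fintype.card L - X : L[X]) ≠ 0 :=
      FiniteField.X_pow_card_sub_X_ne_zero L Fintype.one_lt_card
    have hroots : (X ^ Fintype.card L - X : L[X]).roots = Finset.univ.val :=
      FiniteField.roots_X_pow_card_sub_X L
    have hsplit0 : (X ^ Fintype.card L - X : L[X]).Splits := by
      rw [splits_iff_card_roots, hroots, FiniteField.X_pow_card_sub_X_natDegree_eq L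
        Fintype.one_lt_card]
      rfl
    have hsplit : (g.map (algebraMap κ L)).Splits := Splits.of_dvd hsplit0 hne h2
    have hle : (g.map (algebraMap κ L)).roots ≤ Finset.univ.val := by
      rw [← hroots]
      exact Multiset.le_of_dvd_roots hne h2
    have hnd : (g.map (algebraMap κ L)).roots.Nodup :=
      Multiset.nodup_of_le hle Finset.univ.nodup
    have hg0 : g.map (algebraMap κ L) ≠ 0 :=
      (Polynomial.map_ne_zero_iff (algebraMap κ L).injective).2 hg.ne_zero
    have h4 : ∑ x : L, delta L g x =
        ((g.map (algebraMap κ L)).roots.toFinset.card : ℤ) := by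
      rw [Finset.card_eq_sum_ones, Nat.cast_sum, ← Finset.sum_subset
        (Finset.subset_univ (g.map (algebraMap κ L)).roots.toFinset)]
      · refine Finset.sum_congr rfl fun x hx => ?_
        rw [Multiset.mem_toFinset, mem_roots hg0, IsRoot.def, eval_map_algebraMap] at hx
        unfold delta
        rw [if_pos hx, Nat.cast_one]
      · intro x _ hx
        rw [Multiset.mem_toFinset, mem_roots hg0, IsRoot.def, eval_map_algebraMap] at hx
        unfold delta
        rw [if_neg hx]
    rw [h4, Multiset.toFinset_card_of_nodup hnd, splits_iff_card_roots.1 hsplit,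
      natDegree_map]
  · apply Finset.sum_eq_zero
    intro x _
    unfold delta
    rw [if_neg]
    intro hx
    exact h (dvd_of_root L hg hx)
where
  Multiset.le_of_dvd_roots {p q : L[X]} (hq : q ≠ 0) (h : p ∣ q) : p.roots ≤ q.roots :=
    roots.le_of_dvd hq h

end roots

section comp

variable {κ : Type} [Field κ]

/-- the composition `f(h_r(... h_1(x)))` -/
noncomputable def cmp : (r : ℕ) → (Fin r → κ[X]) → κ[X] → κ[X]
  | 0, _, f => f
  | r + 1, h, f => (cmp r (fun i => h i.succ) f).comp (h 0)

theorem cmp_zero (h : Fin 0 → κ[X]) (f : κ[X]) : cmp 0 h f = f := rfl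

theorem cmp_succ (r : ℕ) (h : Fin (r + 1) → κ[X]) (f : κ[X]) :
    cmp (r + 1) h f = (cmp r (fun i => h i.succ) f).comp (h 0) := rfl

theorem irreducible_of_comp {f h : κ[X]} (hfh : Irreducible (f.comp h)) : Irreducible f := by
  have hh : h.natDegree ≠ 0 := by
    intro h0
    have : (f.comp h).natDegree = 0 := by rw [natDegree_comp, h0, mul_zero]
    exact absurd hfh.natDegree_pos (by omega)
  refine ⟨?_, ?_⟩
  · intro hu
    apply hfh.not_isUnit
    obtain ⟨c, hc, rfl⟩ := Polynomial.isUnit_iff.1 hu
    rw [C_comp]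
    exact isUnit_C.2 hc
  · intro a b hab
    rw [hab, mul_comp] at hfh
    rcases hfh.isUnit_or_isUnit rfl with h1 | h1
    · left
      have h2 := natDegree_eq_zero_of_isUnit h1
      rw [natDegree_comp, Nat.mul_eq_zero] at h2
      have h3 : a.natDegree = 0 := h2.resolve_right hh
      rw [eq_C_of_natDegree_eq_zero h3, C_comp] at h1
      rw [eq_C_of_natDegree_eq_zero h3]
      exact h1
    · right
      have h2 := natDegree_eq_zero_of_isUnit h1
      rw [natDegree_comp, Nat.mul_eq_zero] at h2
      have h3 : b.natDegree = 0 := h2.resolve_right hh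
      rw [eq_C_of_natDegree_eq_zero h3, C_comp] at h1
      rw [eq_C_of_natDegree_eq_zero h3]
      exact h1

end comp

section count

variable {κ : Type} [Field κ] [Fintype κ] (L : Type) [Field L] [Fintype L] [Algebra κ L]

/-- the points of the open set -/
def IsPt {r : ℕ} (h : Fin r → κ[X]) (f : κ[X]) (x : Fin (r + 1) → L) : Prop :=
  aeval (x (Fin.last r)) f ≠ 0 ∧ ∀ i : Fin r, x i.succ ≠ aeval (x i.castSucc) (h i)

open Classical in
/-- the indicator of the open set -/
noncomputable def ind {r : ℕ} (h : Fin r → κ[X]) (f : κ[X]) (x : Fin (r + 1) → L) : ℤ :=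
  if IsPt L h f x then 1 else 0

/-- the number of points with first coordinate `x` -/
noncomputable def cnt (r : ℕ) (h : Fin r → κ[X]) (f : κ[X]) (x : L) : ℤ :=
  ∑ y : Fin r → L, ind L h f (Fin.cons x y)

/-- the constant part -/
noncomputable def cc : (r : ℕ) → (Fin r → κ[X]) → κ[X] → ℤ
  | 0, _, _ => 1
  | r + 1, h, f => ((Fintype.card L : ℤ) - 1) * cc r (fun i => h i.succ) f +
      (-1) ^ (r + 1) * ∑ x : L, delta L (cmp r (fun i => h i.succ) f) x

omit [Fintype κ] [Fintype L] in
theorem isPt_cons {r : ℕ} (h : Fin (r + 1) → κ[X]) (f : κ[X]) (x : L) (w : Fin (r + 1) → L) :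
    IsPt L h f (Fin.cons x w) ↔ w 0 ≠ aeval x (h 0) ∧ IsPt L (fun i => h i.succ) f w := by
  unfold IsPt
  have e1 : (Fin.cons x w : Fin (r + 2) → L) (Fin.last (r + 1)) = w (Fin.last r) := by
    rw [← Fin.succ_last, Fin.cons_succ]
  rw [e1, Fin.forall_fin_succ]
  simp only [Fin.cons_succ, Fin.castSucc_zero, Fin.cons_zero, Fin.castSucc_succ]
  tauto

open Classical in
omit [Fintype κ] [Fintype L] in
theorem ind_cons {r : ℕ} (h : Fin (r + 1) → κ[X]) (f : κ[X]) (x : L) (w : Fin (r + 1) → L) :
    ind L h f (Fin.cons x w) =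
      if w 0 ≠ aeval x (h 0) then ind L (fun i => h i.succ) f w else 0 := by
  unfold ind
  by_cases h1 : w 0 ≠ aeval x (h 0)
  · rw [if_pos h1]
    by_cases h2 : IsPt L (fun i => h i.succ) f w
    · rw [if_pos h2, if_pos ((isPt_cons L h f x w).2 ⟨h1, h2⟩)]
    · rw [if_neg h2, if_neg (fun h3 => h2 ((isPt_cons L h f x w).1 h3).2)]
  · rw [if_neg h1, if_neg (fun h3 => h1 ((isPt_cons L h f x w).1 h3).1)]

open Classical in
omit [Fintype κ] in
theorem cnt_succ (r : ℕ) (h : Fin (r + 1) → κ[X]) (f : κ[X]) (x : L) :
    cnt L (r + 1) h f x =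
      ∑ y : L, if y ≠ aeval x (h 0) then cnt L r (fun i => h i.succ) f y else 0 := by
  unfold cnt
  rw [← (Fin.consEquiv (fun _ : Fin (r + 1) => L)).sum_comp, Fintype.sum_prod_type]
  refine Finset.sum_congr rfl fun y _ => ?_
  have h1 : ∀ z : Fin r → L, ind L h f (Fin.cons x ((Fin.consEquiv fun _ => L) (y, z))) =
      if y ≠ aeval x (h 0) then ind L (fun i => h i.succ) f (Fin.cons y z) else 0 := by
    intro z
    rw [ind_cons]
    rfl
  simp only [h1]
  split_ifs with h2
  · rfl
  · exact Finset.sum_const_zero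

omit [Fintype κ] in
theorem cnt_zero (h : Fin 0 → κ[X]) (f : κ[X]) (x : L) : cnt L 0 h f x = 1 - delta L f x := by
  unfold cnt
  rw [Fintype.sum_unique]
  unfold ind delta
  by_cases hx : aeval x f = 0
  · rw [if_pos hx, if_neg (fun h' => h'.1 hx)]
    rfl
  · rw [if_neg hx, if_pos ⟨hx, fun i => i.elim0⟩]
    rfl

omit [Fintype κ] in
/-- the number of points with given first coordinate -/
theorem cnt_eq (r : ℕ) : ∀ (h : Fin r → κ[X]) (f : κ[X]) (x : L),
    cnt L r h f x = cc L r h f + (-1) ^ (r + 1) * delta L (cmp r h f) x := by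
  classical
  induction r with
  | zero =>
    intro h f x
    rw [cnt_zero]
    show _ = 1 + (-1) ^ (0 + 1) * delta L f x
    ring
  | succ r ih =>
    intro h f x
    rw [cnt_succ]
    have h1 : ∀ y : L, (if y ≠ aeval x (h 0) then cnt L r (fun i => h i.succ) f y else 0) =
        cnt L r (fun i => h i.succ) f y -
          if y = aeval x (h 0) then cnt L r (fun i => h i.succ) f y else 0 := by
      intro y
      by_cases hy : y = aeval x (h 0)
      · rw [if_neg (not_not.2 hy), if_pos hy, sub_self]
      · rw [if_pos hy, if_neg hy, sub_zero]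
    simp only [h1]
    rw [Finset.sum_sub_distrib, Finset.sum_ite_eq' Finset.univ, if_pos (Finset.mem_univ _)]
    simp only [ih]
    rw [Finset.sum_add_distrib, Finset.sum_const, Finset.card_univ, ← Finset.mul_sum,
      nsmul_eq_mul]
    have h2 : delta L (cmp (r + 1) h f) x =
        delta L (cmp r (fun i => h i.succ) f) (aeval x (h 0)) := by
      unfold delta
      rw [cmp_succ, aeval_comp]
    rw [h2]
    show _ = ((Fintype.card L : ℤ) - 1) * cc L r (fun i => h i.succ) f +
      (-1) ^ (r + 1) * ∑ x : L, delta L (cmp r (fun i => h i.succ) f) x + _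
    ring

omit [Fintype κ] in
/-- the number of points -/
theorem total_eq (r : ℕ) (h : Fin r → κ[X]) (f : κ[X]) :
    ∑ x : Fin (r + 1) → L, ind L h f x =
      (Fintype.card L : ℤ) * cc L r h f +
        (-1) ^ (r + 1) * ∑ x : L, delta L (cmp r h f) x := by
  rw [← (Fin.consEquiv (fun _ : Fin (r + 1) => L)).sum_comp, Fintype.sum_prod_type]
  have h1 : ∀ x : L, ∑ y : Fin r → L, ind L h f ((Fin.consEquiv fun _ => L) (x, y)) =
      cc L r h f + (-1) ^ (r + 1) * delta L (cmp r h f) x := by
    intro x
    rw [← cnt_eq]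
    rfl
  simp only [h1]
  rw [Finset.sum_add_distrib, Finset.sum_const, Finset.card_univ, ← Finset.mul_sum,
    nsmul_eq_mul]

end count

end Pool.Agent.TH943.IP
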