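import Pool.Agent.TH943.IP.Main

/-!
Frobenius on the cohomology of the coverings `v ^ (p ^ s) = f(x_r) ∏ (x_i - h_i(x_(i-1)))`: the final
theorem.
-/

set_option autoImplicit false
set_option maxHeartbeats 1000000

open Polynomial

namespace Pool.Agent.TH943.IP

open Pool.Agent.W528.HS Pool.Agent.W528.HA

theorem main {p s : ℕ} (hp : p.Prime) (hs : 1 ≤ s) (κ : Type) [Field κ] [Fintype κ] {z : κ}
    (hz : IsPrimitiveRoot z (p ^ s)) {r : ℕ} (h : Fin (r + 1) → κ[X]) (f : κ[X])
    {b : Fin (r + 1) → ℕ} {c : ℕ} (hb : ∀ i, b i ≠ 0) (hc : c ≠ 0)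
    (hirr : Irreducible (cmp (r + 1) h f)) (hdeg : ¬ p ∣ (cmp (r + 1) h f).natDegree)
    {E : Type} [Field E] [CharZero E] [IsAlgClosed E] {μ : E} (hμ : IsPrimitiveRoot μ (p ^ s))
    {W : Type} [AddCommGroup W] [Module E W] [FiniteDimensional E W] (Φ : Module.End E W)
    (hΦ : ∀ (L : Type) [Field L] [Fintype L] [Algebra κ L],
      (-1) ^ (r + 2) * LinearMap.trace E W (Φ ^ Module.finrank κ L) =
        ∑ x : Fin (r + 2) → L, kv (p ^ s) (algebraMap κ L z) μ
          ((GG L h f b c x) ^ ((Fintype.card L - 1) / p ^ s)))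
    (hdim : Module.finrank E W + (cmp r (fun i => h i.succ) f).natDegree =
      (cmp (r + 1) h f).natDegree) :
    Φ.charpoly.Separable ∧ Φ.IsSemisimple := by
  have hfact : Fact p.Prime := ⟨hp⟩
  have hq : ((Fintype.card κ : ℕ) : ZMod p) = 1 := card_eq_one hp hs hz (ZMod p)
  have hirr1 : Irreducible (cmp r (fun i => h i.succ) f) := by
    rw [cmp_succ] at hirr
    exact irreducible_of_comp hirr
  set K := (cmp r (fun i => h i.succ) f).natDegree with hK
  have hKpos : 0 < K := hirr1.natDegree_pos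
  have hKm : (cmp (r + 1) h f).natDegree = K * (h 0).natDegree := by
    rw [cmp_succ, natDegree_comp]
  set m := (h 0).natDegree with hm
  rw [hKm] at hdeg hdim
  have hmpos : 0 < m := by
    rcases Nat.eq_zero_or_pos m with h0 | h0
    · rw [h0, mul_zero] at hdeg
      exact absurd (dvd_zero p) hdeg
    · exact h0
  -- the polynomial `H`
  have hsq : Squarefree (1 - X ^ (K * m) : (ZMod p)[X]) := by
    have h1 : (X ^ (K * m) - 1 : (ZMod p)[X]).Separable := by
      rw [X_pow_sub_one_separable_iff, Ne, ZMod.natCast_eq_zero_iff]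
      exact hdeg
    rw [← neg_sub]
    exact h1.squarefree.squarefree_of_dvd (neg_dvd.2 dvd_rfl)
  obtain ⟨H, hH⟩ : (1 - X ^ K : (ZMod p)[X]) ∣ 1 - X ^ (K * m) := by
    rw [pow_mul]
    have := sub_dvd_pow_sub_pow (1 : (ZMod p)[X]) (X ^ K) m
    rwa [one_pow] at this
  have hHsq : Squarefree H := by
    rw [hH] at hsq
    exact hsq.of_mul_right
  have hH0 : H ≠ 0 := hHsq.ne_zero
  have hnd : ∀ {e : ℕ}, 0 < e → (1 - X ^ e : (ZMod p)[X]).natDegree = e := by
    intro e he
    rw [← neg_sub, natDegree_neg, ← C_1, natDegree_X_pow_sub_C]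
  have hHdeg : H.natDegree = Module.finrank E W := by
    have h1 := congrArg natDegree hH
    rw [natDegree_mul (one_sub_ne hKpos) hH0, hnd hKpos, hnd (Nat.mul_pos hKpos hmpos)] at h1
    omega
  -- the number of points
  obtain ⟨P₁, P₂, B₁, B₂, h1, h2, h3, h4, h5, h6⟩ := rep_total (E := E) hq r h f hirr
  have hU : ∀ (L : Type) [Field L] [Fintype L] [Algebra κ L],
      (projOpen L ((FF h f b c).map (algebraMap κ L)) : E) =
        (B₁.map fun x => x ^ Module.finrank κ L).sum -
          (B₂.map fun x => x ^ Module.finrank κ L).sum := by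
    intro L _ _ _
    have : FiniteDimensional κ L := Module.Finite.of_finite
    have h7 : (projOpen L ((FF h f b c).map (algebraMap κ L)) : ℤ) =
        (Fintype.card κ : ℤ) ^ Module.finrank κ L *
          cs (Fintype.card κ) (r + 1) h f (Module.finrank κ L) +
        (-1) ^ (r + 2) * NN (cmp (r + 1) h f).natDegree (Module.finrank κ L) := by
      rw [projOpen_eq h f hb hc, total_eq, cc_eq L _ h f hirr, sum_delta L hirr]
      have h8 : (Fintype.card L : ℤ) = (Fintype.card κ : ℤ) ^ Module.finrank κ L := by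
        rw [Module.card_eq_pow_finrank (K := κ) (V := L)]
        push_cast
        rfl
      rw [h8]
    rw [← Int.cast_natCast, h7]
    exact h5 _ Module.finrank_pos
  have hN : 0 < p ^ s := pow_pos hp.pos s
  have hz0 : z ≠ 0 := hz.ne_zero hN.ne'
  refine semisimple_gen Pool.Agent.W715.HS.OC.main Pool.Agent.W326.HS.EI.main
    Pool.Agent.W111.HS.EC.main Pool.Agent.W63.HS.TR.main Pool.Agent.W804.HS.RD.main hp κ hz
    (n := r + 2) (FF h f b c) hμ P₁ P₂ h1 h2 B₁ B₂ h3 h4 hU Φ ?_ H hHsq hHdeg ?_ ?_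
  · intro L _ _ _
    rw [hΦ L, projSum_eq hN]
    · have : IsPrimitiveRoot (algebraMap κ L z) (p ^ s) :=
        hz.map_of_injective (algebraMap κ L).injective
      exact pow_dvd_card hN this
    · exact (map_ne_zero_iff _ (algebraMap κ L).injective).2 hz0
  · intro hev
    rw [← hK, hKm] at h6
    have hr : Even r := by
      rw [Nat.even_add] at hev
      exact hev.2 even_two
    have e1 : ¬ Even (r + 1) := by rw [Nat.even_add_one]; exact not_not.2 hr
    have e2 : Even (r + 2) := hev
    have e3 : ¬ Even (r + 3) := by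
      rw [show r + 3 = r + 2 + 1 from rfl, Nat.even_add_one]; exact not_not.2 hev
    unfold sg at h6
    rw [if_neg e1, if_pos e2, if_pos e2, if_neg e3, one_mul, mul_one, hH] at h6
    apply mul_right_cancel₀ (one_sub_ne hKpos)
    rw [h6]
    ring
  · intro hodd
    rw [← hK, hKm] at h6
    have hr : Odd r := by
      rw [Nat.odd_add] at hodd
      exact hodd.2 even_two
    have e1 : Even (r + 1) := hr.add_one
    have e2 : ¬ Even (r + 2) := Nat.not_even_iff_odd.2 hodd
    have e3 : Even (r + 3) := hodd.add_one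
    unfold sg at h6
    rw [if_pos e1, if_neg e2, if_neg e2, if_pos e3, one_mul, mul_one, hH] at h6
    apply mul_right_cancel₀ (one_sub_ne hKpos)
    rw [← h6]
    ring

end Pool.Agent.TH943.IP
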