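import Mathlib

/-!
Exponential sums with their reduction modulo `p`.
-/

set_option autoImplicit false

open Polynomial

namespace Pool.Agent.TH943.IP

/-- `u(m) = ∑ x ^ m` over `B₁` minus the same over `B₂`, with integral `P_j = ∏ (1 - x T)` over `B_j`
and `P₁ / P₂ = H₁ / H₂` modulo `p`. -/
def Rep (p : ℕ) (E : Type) [Field E] (u : ℕ → ℤ) (H₁ H₂ : (ZMod p)[X]) : Prop :=
  ∃ (P₁ P₂ : ℤ[X]) (B₁ B₂ : Multiset E), P₁.coeff 0 = 1 ∧ P₂.coeff 0 = 1 ∧
    P₁.map (Int.castRingHom E) = (B₁.map fun x => 1 - C x * X).prod ∧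
    P₂.map (Int.castRingHom E) = (B₂.map fun x => 1 - C x * X).prod ∧
    (∀ m : ℕ, 1 ≤ m → (u m : E) = (B₁.map fun x => x ^ m).sum - (B₂.map fun x => x ^ m).sum) ∧
    P₁.map (Int.castRingHom (ZMod p)) * H₂ = P₂.map (Int.castRingHom (ZMod p)) * H₁

variable {p : ℕ} {E : Type} [Field E]

theorem Rep.congr {u v : ℕ → ℤ} {H₁ H₂ : (ZMod p)[X]} (h : Rep p E u H₁ H₂)
    (huv : ∀ m, 1 ≤ m → u m = v m) : Rep p E v H₁ H₂ := by
  obtain ⟨P₁, P₂, B₁, B₂, h1, h2, h3, h4, h5, h6⟩ := h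
  exact ⟨P₁, P₂, B₁, B₂, h1, h2, h3, h4, fun m hm => by rw [← huv m hm]; exact h5 m hm, h6⟩

theorem Rep.neg {u : ℕ → ℤ} {H₁ H₂ : (ZMod p)[X]} (h : Rep p E u H₁ H₂) :
    Rep p E (fun m => - u m) H₂ H₁ := by
  obtain ⟨P₁, P₂, B₁, B₂, h1, h2, h3, h4, h5, h6⟩ := h
  refine ⟨P₂, P₁, B₂, B₁, h2, h1, h4, h3, fun m hm => ?_, h6.symm⟩
  push_cast
  rw [h5 m hm]
  ring

theorem Rep.add {u v : ℕ → ℤ} {H₁ H₂ H₁' H₂' : (ZMod p)[X]} (h : Rep p E u H₁ H₂)
    (h' : Rep p E v H₁' H₂') : Rep p E (fun m => u m + v m) (H₁ * H₁') (H₂ * H₂') := by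
  obtain ⟨P₁, P₂, B₁, B₂, h1, h2, h3, h4, h5, h6⟩ := h
  obtain ⟨P₁', P₂', B₁', B₂', h1', h2', h3', h4', h5', h6'⟩ := h'
  refine ⟨P₁ * P₁', P₂ * P₂', B₁ + B₁', B₂ + B₂', ?_, ?_, ?_, ?_, fun m hm => ?_, ?_⟩
  · rw [mul_coeff_zero, h1, h1', mul_one]
  · rw [mul_coeff_zero, h2, h2', mul_one]
  · rw [Polynomial.map_mul, h3, h3', Multiset.map_add, Multiset.prod_add]
  · rw [Polynomial.map_mul, h4, h4', Multiset.map_add, Multiset.prod_add]
  · rw [Multiset.map_add, Multiset.map_add, Multiset.sum_add, Multiset.sum_add]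
    push_cast
    rw [h5 m hm, h5' m hm]
    ring
  · rw [Polynomial.map_mul, Polynomial.map_mul]
    calc _ = (P₁.map (Int.castRingHom (ZMod p)) * H₂) *
        (P₁'.map (Int.castRingHom (ZMod p)) * H₂') := by ring
      _ = _ := by rw [h6, h6']; ring

theorem Rep.cancel [Fact p.Prime] {u : ℕ → ℤ} {A H₁ H₂ : (ZMod p)[X]} (hA : A ≠ 0)
    (h : Rep p E u (A * H₁) (A * H₂)) : Rep p E u H₁ H₂ := by
  obtain ⟨P₁, P₂, B₁, B₂, h1, h2, h3, h4, h5, h6⟩ := h
  refine ⟨P₁, P₂, B₁, B₂, h1, h2, h3, h4, h5, ?_⟩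
  apply mul_left_cancel₀ hA
  calc _ = P₁.map (Int.castRingHom (ZMod p)) * (A * H₂) := by ring
    _ = _ := by rw [h6]; ring

theorem map_scale (S : Multiset E) (q : E) :
    ((S.map fun x => 1 - C x * X).prod : E[X]).comp (C q * X) =
      ((S.map fun x => q * x).map fun x => 1 - C x * X).prod := by
  rw [Polynomial.multiset_prod_comp, Multiset.map_map, Multiset.map_map]
  congr 1
  apply Multiset.map_congr rfl
  intro x _
  simp only [Function.comp_apply, sub_comp, one_comp, mul_comp, C_comp, X_comp]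
  rw [C_mul]
  ring

/-- multiplication by the number of elements -/
theorem Rep.scale {q : ℕ} (hq : ((q : ℕ) : ZMod p) = 1) {u : ℕ → ℤ} {H₁ H₂ : (ZMod p)[X]}
    (h : Rep p E u H₁ H₂) : Rep p E (fun m => (q : ℤ) ^ m * u m) H₁ H₂ := by
  obtain ⟨P₁, P₂, B₁, B₂, h1, h2, h3, h4, h5, h6⟩ := h
  have hmod : ∀ P : ℤ[X], (P.comp (C (q : ℤ) * X)).map (Int.castRingHom (ZMod p)) =
      P.map (Int.castRingHom (ZMod p)) := by
    intro P
    rw [Polynomial.map_comp, Polynomial.map_mul, map_C, map_X]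
    have : (Int.castRingHom (ZMod p)) (q : ℤ) = 1 := by
      rw [eq_intCast, Int.cast_natCast, hq]
    rw [this, C_1, one_mul, comp_X]
  have hE : ∀ P : ℤ[X], (P.comp (C (q : ℤ) * X)).map (Int.castRingHom E) =
      (P.map (Int.castRingHom E)).comp (C (q : E) * X) := by
    intro P
    rw [Polynomial.map_comp, Polynomial.map_mul, map_C, map_X]
    congr 3
    simp
  have h0 : ∀ P : ℤ[X], (P.comp (C (q : ℤ) * X)).coeff 0 = P.coeff 0 := by
    intro P
    rw [comp_C_mul_X_coeff, pow_zero, mul_one]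
  refine ⟨P₁.comp (C (q : ℤ) * X), P₂.comp (C (q : ℤ) * X), B₁.map fun x => (q : E) * x,
    B₂.map fun x => (q : E) * x, ?_, ?_, ?_, ?_, fun m hm => ?_, ?_⟩
  · rw [h0, h1]
  · rw [h0, h2]
  · rw [hE, h3, map_scale]
  · rw [hE, h4, map_scale]
  · rw [Multiset.map_map, Multiset.map_map]
    have e1 : ∀ B : Multiset E, (B.map ((fun x => x ^ m) ∘ fun x => (q : E) * x)).sum =
        (q : E) ^ m * (B.map fun x => x ^ m).sum := by
      intro B
      rw [← Multiset.sum_map_mul_left]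
      congr 1
      apply Multiset.map_congr rfl
      intro x _
      simp only [Function.comp_apply]
      rw [mul_pow]
    rw [e1, e1]
    push_cast
    rw [h5 m hm]
    ring
  · rw [hmod, hmod]
    exact h6

theorem Rep.one : Rep p E (fun _ => 1) (1 - X) 1 := by
  refine ⟨1 - X, 1, {1}, 0, ?_, ?_, ?_, ?_, fun m _ => ?_, ?_⟩
  · simp
  · simp
  · simp
  · simp
  · simp
  · simp

theorem reflect_sub' (N : ℕ) (f g : E[X]) : reflect N (f - g) = reflect N f - reflect N g := by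
  ext n
  rw [coeff_sub, coeff_reflect, coeff_reflect, coeff_reflect, coeff_sub]

theorem reverse_lin (a : E) : (X - C a : E[X]).reverse = 1 - C a * X := by
  unfold reverse
  rw [natDegree_X_sub_C, reflect_sub', reflect_C, pow_one]
  have h1 : reflect 1 (X : E[X]) = 1 := by
    have h2 := reflect_monomial (R := E) 1 1
    rw [pow_one, revAt_le le_rfl, Nat.sub_self, pow_zero] at h2
    exact h2
  rw [h1]

/-- the roots of unity -/
theorem prod_roots [IsAlgClosed E] [CharZero E] {e : ℕ} (he : 0 < e) :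
    ((nthRoots e (1 : E)).map fun x => 1 - C x * X).prod = (1 - X ^ e : E[X]) := by
  have h1 : (X ^ e - C (1 : E)).Splits := IsAlgClosed.splits _
  have h2 := h1.eq_prod_roots
  rw [(monic_X_pow_sub_C (1 : E) he.ne').leadingCoeff, C_1, one_mul] at h2
  have h3 := congrArg reverse h2
  have h4 : ∀ S : Multiset E, ((S.map fun x => X - C x).prod : E[X]).reverse =
      (S.map fun x => 1 - C x * X).prod := by
    intro S
    induction S using Multiset.induction_on with
    | empty =>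
      rw [Multiset.map_zero, Multiset.prod_zero, Multiset.map_zero, Multiset.prod_zero]
      rw [← C_1, reverse_C]
    | cons a S ih =>
      rw [Multiset.map_cons, Multiset.prod_cons, reverse_mul_of_domain, ih, Multiset.map_cons,
        Multiset.prod_cons, reverse_lin]
  rw [h4] at h3
  unfold nthRoots
  rw [C_1, ← h3]
  unfold reverse
  rw [← C_1, natDegree_X_pow_sub_C, reflect_sub', reflect_C, reflect_monomial,
    revAt_le le_rfl, Nat.sub_self, pow_zero, C_1, one_mul]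

/-- the power sums of the roots of unity -/
theorem sum_roots [IsAlgClosed E] [CharZero E] {e : ℕ} (he : 0 < e) (m : ℕ) :
    ((nthRoots e (1 : E)).map fun x => x ^ m).sum = if e ∣ m then (e : E) else 0 := by
  classical
  have hne : (e : E) ≠ 0 := by exact_mod_cast he.ne'
  have : NeZero (e : E) := ⟨hne⟩
  obtain ⟨ζ, hζ⟩ := HasEnoughRootsOfUnity.exists_primitiveRoot E e
  have hnd : (nthRoots e (1 : E)).Nodup := hζ.nthRoots_one_nodup
  have hcard : Multiset.card (nthRoots e (1 : E)) = e := hζ.card_nthRoots_one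
  have hmem : ∀ x : E, x ∈ nthRoots e (1 : E) ↔ x ^ e = 1 := fun x => mem_nthRoots he
  split_ifs with h
  · obtain ⟨c, rfl⟩ := h
    have h1 : (nthRoots e (1 : E)).map (fun x => x ^ (e * c)) =
        (nthRoots e (1 : E)).map (fun _ => (1 : E)) := by
      apply Multiset.map_congr rfl
      intro x hx
      rw [pow_mul, (hmem x).1 hx, one_pow]
    rw [h1, Multiset.map_const', Multiset.sum_replicate, hcard, nsmul_eq_mul, mul_one]
  · set S := ((nthRoots e (1 : E)).map fun x => x ^ m).sum with hS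
    have hζ0 : ζ ≠ 0 := hζ.ne_zero he.ne'
    have h1 : (nthRoots e (1 : E)).map (fun x => ζ * x) = nthRoots e (1 : E) := by
      have h2 : ((nthRoots e (1 : E)).map (fun x => ζ * x)).Nodup :=
        hnd.map (mul_right_injective₀ hζ0)
      rw [Multiset.Nodup.ext h2 hnd]
      intro x
      rw [Multiset.mem_map]
      constructor
      · rintro ⟨y, hy, rfl⟩
        rw [hmem] at hy ⊢
        rw [mul_pow, hζ.pow_eq_one, hy, one_mul]
      · intro hx
        rw [hmem] at hx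
        refine ⟨ζ⁻¹ * x, ?_, ?_⟩
        · rw [hmem, mul_pow, inv_pow, hζ.pow_eq_one, hx, inv_one, one_mul]
        · rw [← mul_assoc, mul_inv_cancel₀ hζ0, one_mul]
    have h3 : S = ζ ^ m * S := by
      conv_lhs => rw [hS, ← h1]
      rw [Multiset.map_map, hS, ← Multiset.sum_map_mul_left]
      congr 1
      apply Multiset.map_congr rfl
      intro x _
      simp only [Function.comp_apply]
      rw [mul_pow]
    have h4 : ζ ^ m ≠ 1 := fun h5 => h (hζ.dvd_of_pow_eq_one m h5)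
    have h5 : (ζ ^ m - 1) * S = 0 := by rw [sub_mul, one_mul, ← h3, sub_self]
    exact (mul_eq_zero.1 h5).resolve_left (sub_ne_zero.2 h4)

theorem Rep.roots [IsAlgClosed E] [CharZero E] {e : ℕ} (he : 0 < e) :
    Rep p E (fun m => if e ∣ m then (e : ℤ) else 0) (1 - X ^ e) 1 := by
  refine ⟨1 - X ^ e, 1, nthRoots e (1 : E), 0, ?_, ?_, ?_, ?_, fun m _ => ?_, ?_⟩
  · rw [coeff_sub, coeff_one_zero, coeff_X_pow, if_neg he.ne, sub_zero]
  · simp
  · rw [prod_roots he]
    simp
  · simp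
  · rw [sum_roots he]
    simp only [Multiset.map_zero, Multiset.sum_zero, sub_zero]
    split_ifs <;> simp
  · simp

end Pool.Agent.TH943.IP
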