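import Pool.Agent.TH943.IP.Cnt
import Pool.Agent.TH943.IP.Rep
import Pool.Agent.W528.HS.Fin
import Pool.Agent.W715.HS.OC
import Pool.Agent.W326.HS.EI
import Pool.Agent.W111.HS.EC
import Pool.Agent.W63.HS.TR
import Pool.Agent.W804.HS.RD

/-!
Frobenius on the cohomology of the coverings `v ^ (p ^ s) = f(x_r) ∏ (x_i - h_i(x_(i-1)))`.
-/

set_option autoImplicit false
set_option maxHeartbeats 1000000

open Polynomial

namespace Pool.Agent.TH943.IP

open Pool.Agent.W528.HS Pool.Agent.W528.HA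

section seq

variable {κ : Type} [Field κ]

/-- the constant parts in terms of the degree of the extension -/
noncomputable def cs (q : ℕ) : (r : ℕ) → (Fin r → κ[X]) → κ[X] → ℕ → ℤ
  | 0, _, _ => fun _ => 1
  | r + 1, h, f => fun m => ((q : ℤ) ^ m - 1) * cs q r (fun i => h i.succ) f m +
      (-1) ^ (r + 1) * NN (cmp r (fun i => h i.succ) f).natDegree m

theorem cc_eq [Fintype κ] (L : Type) [Field L] [Fintype L] [Algebra κ L] (r : ℕ) :
    ∀ (h : Fin r → κ[X]) (f : κ[X]), Irreducible (cmp r h f) →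
      cc L r h f = cs (Fintype.card κ) r h f (Module.finrank κ L) := by
  induction r with
  | zero => intro h f _; rfl
  | succ r ih =>
    intro h f hirr
    have h1 : Irreducible (cmp r (fun i => h i.succ) f) := by
      rw [cmp_succ] at hirr
      exact irreducible_of_comp hirr
    show ((Fintype.card L : ℤ) - 1) * cc L r (fun i => h i.succ) f +
      (-1) ^ (r + 1) * ∑ x : L, delta L (cmp r (fun i => h i.succ) f) x = _
    rw [ih _ _ h1, sum_delta L h1]
    have h2 : (Fintype.card L : ℤ) = (Fintype.card κ : ℤ) ^ Module.finrank κ L := by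
      rw [Module.card_eq_pow_finrank (K := κ) (V := L)]
      push_cast
      rfl
    rw [h2]
    rfl

end seq

section rep

variable {p : ℕ} [Fact p.Prime] {E : Type} [Field E] [IsAlgClosed E] [CharZero E]

theorem one_sub_ne {e : ℕ} (he : 0 < e) : (1 - X ^ e : (ZMod p)[X]) ≠ 0 := by
  have h : (X ^ e - C 1 : (ZMod p)[X]) ≠ 0 := X_pow_sub_C_ne_zero he 1
  rw [C_1] at h
  intro h0
  apply h
  rw [← neg_sub, h0, neg_zero]

omit [IsAlgClosed E] [CharZero E] in
theorem Rep.mul_sub_one {q : ℕ} (hq : ((q : ℕ) : ZMod p) = 1) {u : ℕ → ℤ} {H₁ H₂ : (ZMod p)[X]}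
    (h1 : H₁ ≠ 0) (h2 : H₂ ≠ 0) (h : Rep p E u H₁ H₂) :
    Rep p E (fun m => ((q : ℤ) ^ m - 1) * u m) 1 1 := by
  have h3 := (h.scale hq).add h.neg
  have h4 : Rep p E (fun m => ((q : ℤ) ^ m - 1) * u m) (H₁ * H₂) (H₂ * H₁) :=
    h3.congr fun m _ => by ring
  rw [mul_comm H₂ H₁] at h4
  have h5 : Rep p E (fun m => ((q : ℤ) ^ m - 1) * u m) ((H₁ * H₂) * 1) ((H₁ * H₂) * 1) := by
    rw [mul_one]
    exact h4
  exact h5.cancel (mul_ne_zero h1 h2)

/-- numerator for the sign -/
noncomputable def sg (p k e : ℕ) : (ZMod p)[X] := if Even k then 1 - X ^ e else 1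

theorem sg_ne {k e : ℕ} (he : 0 < e) : sg p k e ≠ 0 := by
  unfold sg
  split_ifs
  · exact one_sub_ne he
  · exact one_ne_zero

theorem Rep.sign {e : ℕ} (he : 0 < e) (k : ℕ) :
    Rep p E (fun m => (-1) ^ k * NN e m) (sg p k e) (sg p (k + 1) e) := by
  unfold sg
  rcases Nat.even_or_odd k with h | h
  · rw [if_pos h, if_neg (by rw [Nat.even_add_one]; exact not_not.2 h)]
    refine (Rep.roots (p := p) (E := E) he).congr fun m _ => ?_
    rw [h.neg_one_pow, one_mul]
    rfl
  · rw [if_neg (Nat.not_even_iff_odd.2 h), if_pos h.add_one]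
    refine (Rep.roots (p := p) (E := E) he).neg.congr fun m _ => ?_
    rw [h.neg_one_pow]
    unfold NN
    ring

theorem rep_cs {κ : Type} [Field κ] {q : ℕ} (hq : ((q : ℕ) : ZMod p) = 1) (r : ℕ) :
    ∀ (h : Fin r → κ[X]) (f : κ[X]), Irreducible (cmp r h f) →
      ∃ H₁ H₂ : (ZMod p)[X], H₁ ≠ 0 ∧ H₂ ≠ 0 ∧ Rep p E (cs q r h f) H₁ H₂ := by
  induction r with
  | zero =>
    intro h f _
    refine ⟨1 - X, 1, ?_, one_ne_zero, Rep.one⟩
    have := one_sub_ne (p := p) one_pos
    rwa [pow_one] at this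
  | succ r ih =>
    intro h f hirr
    have h1 : Irreducible (cmp r (fun i => h i.succ) f) := by
      rw [cmp_succ] at hirr
      exact irreducible_of_comp hirr
    obtain ⟨H₁, H₂, g1, g2, g3⟩ := ih _ _ h1
    have h2 := (g3.mul_sub_one hq g1 g2).add
      (Rep.sign (p := p) (E := E) h1.natDegree_pos (r + 1))
    exact ⟨_, _, mul_ne_zero one_ne_zero (sg_ne h1.natDegree_pos),
      mul_ne_zero one_ne_zero (sg_ne h1.natDegree_pos), h2⟩

/-- the representation of the number of points -/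
theorem rep_total {κ : Type} [Field κ] {q : ℕ} (hq : ((q : ℕ) : ZMod p) = 1) (r : ℕ)
    (h : Fin (r + 1) → κ[X]) (f : κ[X]) (hirr : Irreducible (cmp (r + 1) h f)) :
    Rep p E (fun m => (q : ℤ) ^ m * cs q (r + 1) h f m +
        (-1) ^ (r + 2) * NN (cmp (r + 1) h f).natDegree m)
      (sg p (r + 1) (cmp r (fun i => h i.succ) f).natDegree *
        sg p (r + 2) (cmp (r + 1) h f).natDegree)
      (sg p (r + 2) (cmp r (fun i => h i.succ) f).natDegree *
        sg p (r + 3) (cmp (r + 1) h f).natDegree) := by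
  have h1 : Irreducible (cmp r (fun i => h i.succ) f) := by
    rw [cmp_succ] at hirr
    exact irreducible_of_comp hirr
  obtain ⟨H₁, H₂, g1, g2, g3⟩ := rep_cs (E := E) hq r (fun i => h i.succ) f h1
  have h2 : Rep p E (cs q (r + 1) h f) (sg p (r + 1) (cmp r (fun i => h i.succ) f).natDegree)
      (sg p (r + 2) (cmp r (fun i => h i.succ) f).natDegree) := by
    have h3 := (g3.mul_sub_one hq g1 g2).add
      (Rep.sign (p := p) (E := E) h1.natDegree_pos (r + 1))
    rw [one_mul, one_mul] at h3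
    exact h3
  exact (h2.scale hq).add (Rep.sign hirr.natDegree_pos (r + 2))

end rep

section mv

variable {κ : Type} [Field κ]

/-- the form -/
noncomputable def FF {r : ℕ} (h : Fin r → κ[X]) (f : κ[X]) (b : Fin r → ℕ) (c : ℕ) :
    MvPolynomial (Fin (r + 2)) κ :=
  MvPolynomial.X (Fin.last (r + 1)) *
    ((Polynomial.aeval (MvPolynomial.X (Fin.last r).castSucc : MvPolynomial (Fin (r + 2)) κ) f) ^ c *
      ∏ i : Fin r, (MvPolynomial.X i.succ.castSucc -
        Polynomial.aeval (MvPolynomial.X i.castSucc.castSucc : MvPolynomial (Fin (r + 2)) κ)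
          (h i)) ^ b i)

/-- the value of the function -/
noncomputable def GG {r : ℕ} (L : Type) [Field L] [Algebra κ L] (h : Fin r → κ[X]) (f : κ[X])
    (b : Fin r → ℕ) (c : ℕ) (x : Fin (r + 1) → L) : L :=
  (aeval (x (Fin.last r)) f) ^ c * ∏ i : Fin r, (x i.succ - aeval (x i.castSucc) (h i)) ^ b i

variable {L : Type} [Field L] [Algebra κ L]

theorem eval_FF {r : ℕ} (h : Fin r → κ[X]) (f : κ[X]) (b : Fin r → ℕ) (c : ℕ)
    (x : Fin (r + 1) → L) (w : L) :
    MvPolynomial.eval (Fin.snoc x w : Fin (r + 2) → L) ((FF h f b c).map (algebraMap κ L)) =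
      w * GG L h f b c x := by
  rw [MvPolynomial.eval_map, ← MvPolynomial.aeval_def]
  have key : ∀ (j : Fin (r + 1)) (g : κ[X]),
      MvPolynomial.aeval (Fin.snoc x w : Fin (r + 2) → L)
        (Polynomial.aeval (MvPolynomial.X j.castSucc : MvPolynomial (Fin (r + 2)) κ) g) =
      Polynomial.aeval (x j) g := by
    intro j g
    rw [← Polynomial.aeval_algHom_apply, MvPolynomial.aeval_X, Fin.snoc_castSucc]
  unfold FF GG
  rw [map_mul, map_mul, map_pow, map_prod, key, MvPolynomial.aeval_X, Fin.snoc_last]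
  congr 2
  refine Finset.prod_congr rfl fun i _ => ?_
  rw [map_pow, map_sub, key, MvPolynomial.aeval_X, Fin.snoc_castSucc]

theorem GG_ne {r : ℕ} (h : Fin r → κ[X]) (f : κ[X]) {b : Fin r → ℕ} {c : ℕ} (hb : ∀ i, b i ≠ 0)
    (hc : c ≠ 0) (x : Fin (r + 1) → L) : GG L h f b c x ≠ 0 ↔ IsPt L h f x := by
  unfold GG IsPt
  rw [mul_ne_zero_iff, pow_ne_zero_iff hc, Finset.prod_ne_zero_iff]
  constructor
  · rintro ⟨h1, h2⟩
    refine ⟨h1, fun i hi => ?_⟩
    apply h2 i (Finset.mem_univ i)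
    rw [hi, sub_self, zero_pow (hb i)]
  · rintro ⟨h1, h2⟩
    exact ⟨h1, fun i _ => pow_ne_zero _ (sub_ne_zero.2 (h2 i))⟩

omit [Algebra κ L] in
theorem isNorm_snoc_one {r : ℕ} (x : Fin (r + 1) → L) :
    IsNorm (Fin.snoc x 1 : Fin (r + 2) → L) := by
  refine ⟨Fin.last (r + 1), ?_, ?_⟩
  · rw [Fin.snoc_last]
  · intro j hj
    exact absurd hj (not_lt.2 (Fin.le_last j))

omit [Algebra κ L] in
theorem eq_one_of_isNorm {r : ℕ} (x : Fin (r + 1) → L) (w : L) (hw : w ≠ 0)
    (h : IsNorm (Fin.snoc x w : Fin (r + 2) → L)) : w = 1 := by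
  obtain ⟨i, h1, h2⟩ := h
  rcases (Fin.le_last i).lt_or_eq with h3 | h3
  · have h4 := h2 _ h3
    rw [Fin.snoc_last] at h4
    exact absurd h4 hw
  · rw [h3, Fin.snoc_last] at h1
    exact h1

open Classical in
theorem projOpen_eq [Fintype L] {r : ℕ} (h : Fin r → κ[X]) (f : κ[X]) {b : Fin r → ℕ} {c : ℕ}
    (hb : ∀ i, b i ≠ 0) (hc : c ≠ 0) :
    (projOpen L ((FF h f b c).map (algebraMap κ L)) : ℤ) = ∑ x : Fin (r + 1) → L, ind L h f x := by
  have h1 : {v : Fin (r + 2) → L | IsNorm v ∧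
      MvPolynomial.eval v ((FF h f b c).map (algebraMap κ L)) ≠ 0} =
      (fun x : Fin (r + 1) → L => (Fin.snoc x 1 : Fin (r + 2) → L)) ''
        {x | IsPt L h f x} := by
    ext v
    simp only [Set.mem_setOf_eq, Set.mem_image]
    constructor
    · rintro ⟨g1, g2⟩
      have e : v = Fin.snoc (Fin.init v) (v (Fin.last (r + 1))) := (Fin.snoc_init_self v).symm
      rw [e] at g1 g2
      rw [eval_FF] at g2
      have g3 := left_ne_zero_of_mul g2
      have g4 := eq_one_of_isNorm _ _ g3 g1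
      refine ⟨Fin.init v, (GG_ne h f hb hc _).1 (right_ne_zero_of_mul g2), ?_⟩
      rw [← g4]
      exact Fin.snoc_init_self v
    · rintro ⟨x, g1, rfl⟩
      refine ⟨isNorm_snoc_one x, ?_⟩
      rw [eval_FF, one_mul]
      exact (GG_ne h f hb hc x).2 g1
  unfold projOpen
  rw [h1, Set.ncard_image_of_injective]
  · rw [Set.ncard_eq_toFinset_card', Finset.card_eq_sum_ones]
    unfold ind
    rw [Finset.sum_ite, Finset.sum_const_zero, add_zero]
    push_cast
    apply Finset.sum_congr _ fun _ _ => rfl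
    ext x
    simp
  · intro x y hxy
    have := congrArg Fin.init hxy
    simpa only [Fin.init_snoc] using this

open Classical in
theorem projSum_eq [Fintype L] {E : Type} [Field E] {N r : ℕ} (hN : 0 < N)
    (hdvd : N ∣ Fintype.card L - 1) {z : L} (hz : z ≠ 0) (μ : E)
    (h : Fin r → κ[X]) (f : κ[X]) {b : Fin r → ℕ} {c : ℕ} :
    projSum L E N ((FF h f b c).map (algebraMap κ L)) z μ =
      ∑ x : Fin (r + 1) → L, kv N z μ ((GG L h f b c x) ^ ((Fintype.card L - 1) / N)) := by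
  have hexp : (Fintype.card L - 1) / N ≠ 0 := by
    obtain ⟨a, ha⟩ := hdvd
    rw [ha, Nat.mul_div_cancel_left a hN]
    rintro rfl
    have := Fintype.one_lt_card (α := L)
    omega
  unfold projSum
  rw [← (Fin.snocEquiv (fun _ : Fin (r + 2) => L)).sum_comp, Fintype.sum_prod_type,
    Finset.sum_eq_single (1 : L)]
  · refine Finset.sum_congr rfl fun x _ => ?_
    have e : (Fin.snocEquiv fun _ : Fin (r + 2) => L) (1, x) =
      (Fin.snoc x 1 : Fin (r + 2) → L) := rfl
    rw [e, if_pos (isNorm_snoc_one x), eval_FF, one_mul]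
  · intro w _ hw
    apply Finset.sum_eq_zero
    intro x _
    have e : (Fin.snocEquiv fun _ : Fin (r + 2) => L) (w, x) =
      (Fin.snoc x w : Fin (r + 2) → L) := rfl
    rw [e]
    by_cases hw0 : w = 0
    · rw [eval_FF, hw0, zero_mul, zero_pow hexp, Pool.Agent.W715.HS.OC.kv_zero hz]
      split_ifs <;> rfl
    · rw [if_neg]
      intro h1
      exact hw (eq_one_of_isNorm x w hw0 h1)
  · intro h1
    exact absurd (Finset.mem_univ _) h1

end mv

end Pool.Agent.TH943.IP
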