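import Pool.Agent.TH943.IP.Fin
import Pool.Agent.TH117.HS.Char
import Pool.Agent.W273.HS.PJ

/-!
Frobenius on the cohomology of the complete coverings `v ^ (p ^ s) = F`.
-/

set_option autoImplicit false
set_option maxHeartbeats 1000000

open Polynomial

namespace Pool.Agent.TH943.IP

open Pool.Agent.W528.HS Pool.Agent.W528.HA Pool.Agent.TH117.HS

section

variable {κ : Type} [Field κ] {L : Type} [Field L] [Algebra κ L]

theorem ncard_points {r : ℕ} (h : Fin r → κ[X]) (f : κ[X]) {b : Fin r → ℕ} {c : ℕ}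
    (Q : L → Prop) :
    Set.ncard {v : Fin (r + 2) → L | IsNorm v ∧
      MvPolynomial.eval v ((FF h f b c).map (algebraMap κ L)) ≠ 0 ∧
      Q (MvPolynomial.eval v ((FF h f b c).map (algebraMap κ L)))} =
    Set.ncard {x : Fin (r + 1) → L | GG L h f b c x ≠ 0 ∧ Q (GG L h f b c x)} := by
  have h1 : {v : Fin (r + 2) → L | IsNorm v ∧
      MvPolynomial.eval v ((FF h f b c).map (algebraMap κ L)) ≠ 0 ∧
      Q (MvPolynomial.eval v ((FF h f b c).map (algebraMap κ L)))} =
      (fun x : Fin (r + 1) → L => (Fin.snoc x 1 : Fin (r + 2) → L)) ''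
        {x | GG L h f b c x ≠ 0 ∧ Q (GG L h f b c x)} := by
    ext v
    constructor
    · rintro ⟨g1, g2, g3⟩
      have e : v = Fin.snoc (Fin.init v) (v (Fin.last (r + 1))) := (Fin.snoc_init_self v).symm
      rw [e] at g1 g2 g3
      rw [eval_FF] at g2 g3
      have g4 := left_ne_zero_of_mul g2
      have g5 := eq_one_of_isNorm _ _ g4 g1
      rw [g5, one_mul] at g2 g3
      refine ⟨Fin.init v, ⟨g2, g3⟩, ?_⟩
      show (Fin.snoc (Fin.init v) 1 : Fin (r + 2) → L) = v
      rw [← g5]
      exact Fin.snoc_init_self v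
    · rintro ⟨x, ⟨g1, g2⟩, rfl⟩
      refine ⟨isNorm_snoc_one x, ?_, ?_⟩
      · show MvPolynomial.eval (Fin.snoc x 1 : Fin (r + 2) → L)
          ((FF h f b c).map (algebraMap κ L)) ≠ 0
        rw [eval_FF, one_mul]
        exact g1
      · show Q (MvPolynomial.eval (Fin.snoc x 1 : Fin (r + 2) → L)
          ((FF h f b c).map (algebraMap κ L)))
        rw [eval_FF, one_mul]
        exact g2
  rw [h1, Set.ncard_image_of_injective]
  intro x y hxy
  have := congrArg Fin.init hxy
  simpa only [Fin.init_snoc] using this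

end

theorem whole_main {p s : ℕ} (hp : p.Prime) (hs : 1 ≤ s) (κ : Type) [Field κ] [Fintype κ] {z : κ}
    (hz : IsPrimitiveRoot z (p ^ s)) {r : ℕ} (h : Fin (r + 1) → κ[X]) (f : κ[X])
    {b : Fin (r + 1) → ℕ} {c : ℕ} (hb : ∀ i, b i ≠ 0) (hc : c ≠ 0)
    (hirr : Irreducible (cmp (r + 1) h f)) (hdeg : ¬ p ∣ (cmp (r + 1) h f).natDegree)
    {E : Type} [Field E] [CharZero E] [IsAlgClosed E]
    {V : Type} [AddCommGroup V] [Module E V] [FiniteDimensional E V] (Φ g : Module.End E V)
    (hcomm : Commute Φ g) (hg : g ^ p ^ s = 1)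
    (hinv : ∀ v, g v = v → Φ v = (Fintype.card κ : E) ^ ((r + 2) / 2) • v)
    (hfix : ∀ (L : Type) [Field L] [Fintype L] [Algebra κ L] (i : ℕ),
      (∑ k ∈ Finset.range (r + 3), if 2 * k = r + 2 then 0 else (Fintype.card L : E) ^ k) +
          (-1) ^ (r + 2) * LinearMap.trace E V (Φ ^ Module.finrank κ L * g ^ i) =
        ((∑ k ∈ Finset.range (r + 3), (Fintype.card L : E) ^ k) -
          (Set.ncard {x : Fin (r + 2) → L | GG L h f b c x ≠ 0} : E)) +
          (p : E) ^ s * (Set.ncard {x : Fin (r + 2) → L | GG L h f b c x ≠ 0 ∧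
            (GG L h f b c x) ^ ((Fintype.card L - 1) / p ^ s) = algebraMap κ L z ^ i} : E))
    (hdim : ∀ ω : E, ω ≠ 1 → ω ^ p ^ s = 1 → Module.finrank E (g.eigenspace ω) +
      (cmp r (fun i => h i.succ) f).natDegree = (cmp (r + 1) h f).natDegree) :
    Φ.IsSemisimple := by
  have hfact : Fact p.Prime := ⟨hp⟩
  have hq : ((Fintype.card κ : ℕ) : ZMod p) = 1 := card_eq_one hp hs hz (ZMod p)
  have hirr1 : Irreducible (cmp r (fun i => h i.succ) f) := by
    rw [cmp_succ] at hirr
    exact irreducible_of_comp hirr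
  set K := (cmp r (fun i => h i.succ) f).natDegree with hK
  have hKpos : 0 < K := hirr1.natDegree_pos
  have hKm : (cmp (r + 1) h f).natDegree = K * (h 0).natDegree := by
    rw [cmp_succ, natDegree_comp]
  set m := (h 0).natDegree with hm
  rw [hKm] at hdeg hdim
  have hmpos : 0 < m := by
    rcases Nat.eq_zero_or_pos m with h0 | h0
    · rw [h0, mul_zero] at hdeg
      exact absurd (dvd_zero p) hdeg
    · exact h0
  -- the polynomial `H`
  have hsq : Squarefree (1 - X ^ (K * m) : (ZMod p)[X]) := by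
    have h1 : (X ^ (K * m) - 1 : (ZMod p)[X]).Separable := by
      rw [X_pow_sub_one_separable_iff, Ne, ZMod.natCast_eq_zero_iff]
      exact hdeg
    rw [← neg_sub]
    exact h1.squarefree.squarefree_of_dvd (neg_dvd.2 dvd_rfl)
  obtain ⟨H, hH⟩ : (1 - X ^ K : (ZMod p)[X]) ∣ 1 - X ^ (K * m) := by
    rw [pow_mul]
    have := sub_dvd_pow_sub_pow (1 : (ZMod p)[X]) (X ^ K) m
    rwa [one_pow] at this
  have hHsq : Squarefree H := by
    rw [hH] at hsq
    exact hsq.of_mul_right
  have hH0 : H ≠ 0 := hHsq.ne_zero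
  have hnd : ∀ {e : ℕ}, 0 < e → (1 - X ^ e : (ZMod p)[X]).natDegree = e := by
    intro e he
    rw [← neg_sub, natDegree_neg, ← C_1, natDegree_X_pow_sub_C]
  have hHdeg : H.natDegree + K = K * m := by
    have h1 := congrArg natDegree hH
    rw [natDegree_mul (one_sub_ne hKpos) hH0, hnd hKpos, hnd (Nat.mul_pos hKpos hmpos)] at h1
    omega
  -- the number of points
  obtain ⟨P₁, P₂, B₁, B₂, h1, h2, h3, h4, h5, h6⟩ := rep_total (E := E) hq r h f hirr
  have hU : ∀ (L : Type) [Field L] [Fintype L] [Algebra κ L],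
      (projOpen L ((FF h f b c).map (algebraMap κ L)) : E) =
        (B₁.map fun x => x ^ Module.finrank κ L).sum -
          (B₂.map fun x => x ^ Module.finrank κ L).sum := by
    intro L _ _ _
    have : FiniteDimensional κ L := Module.Finite.of_finite
    have h7 : (projOpen L ((FF h f b c).map (algebraMap κ L)) : ℤ) =
        (Fintype.card κ : ℤ) ^ Module.finrank κ L *
          cs (Fintype.card κ) (r + 1) h f (Module.finrank κ L) +
        (-1) ^ (r + 2) * NN (cmp (r + 1) h f).natDegree (Module.finrank κ L) := by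
      rw [projOpen_eq h f hb hc, total_eq, cc_eq L _ h f hirr, sum_delta L hirr]
      have h8 : (Fintype.card L : ℤ) = (Fintype.card κ : ℤ) ^ Module.finrank κ L := by
        rw [Module.card_eq_pow_finrank (K := κ) (V := L)]
        push_cast
        rfl
      rw [h8]
    rw [← Int.cast_natCast, h7]
    exact h5 _ Module.finrank_pos
  refine whole hp κ hz (n := r + 2) (FF h f b c) P₁ P₂ h1 h2 B₁ B₂ h3 h4 hU Φ g hcomm hg hinv ?_
    H hHsq ?_ ?_ ?_
  · intro L _ _ _ i
    refine (hfix L i).trans ?_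
    have e1 : projFix L (p ^ s) ((FF h f b c).map (algebraMap κ L)) (algebraMap κ L z) i =
        Set.ncard {x : Fin (r + 2) → L | GG L h f b c x ≠ 0 ∧
            (GG L h f b c x) ^ ((Fintype.card L - 1) / p ^ s) = algebraMap κ L z ^ i} :=
      ncard_points h f (fun y => y ^ ((Fintype.card L - 1) / p ^ s) = algebraMap κ L z ^ i)
    have e2 : projOpen L ((FF h f b c).map (algebraMap κ L)) =
        Set.ncard {x : Fin (r + 2) → L | GG L h f b c x ≠ 0} := by
      have := ncard_points (L := L) h f (b := b) (c := c) (fun _ => True)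
      simp only [and_true] at this
      exact this
    have e3 := Pool.Agent.W273.HS.PJ.main L (r + 2) ((FF h f b c).map (algebraMap κ L))
    have e4 : (projZero L ((FF h f b c).map (algebraMap κ L)) : E) =
        (∑ k ∈ Finset.range (r + 3), (Fintype.card L : E) ^ k) -
          (projOpen L ((FF h f b c).map (algebraMap κ L)) : E) := by
      have e5 := congrArg (Nat.cast : ℕ → E) e3
      push_cast at e5
      rw [← e5]
      ring
    rw [e1, e4, e2]
  · intro ω hω1 hω
    have := hdim ω hω1 hω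
    omega
  · intro hev
    rw [← hK, hKm] at h6
    have hr : Even r := by
      rw [Nat.even_add] at hev
      exact hev.2 even_two
    have e1 : ¬ Even (r + 1) := by rw [Nat.even_add_one]; exact not_not.2 hr
    have e2 : Even (r + 2) := hev
    have e3 : ¬ Even (r + 3) := by
      rw [show r + 3 = r + 2 + 1 from rfl, Nat.even_add_one]; exact not_not.2 hev
    unfold sg at h6
    rw [if_neg e1, if_pos e2, if_pos e2, if_neg e3, one_mul, mul_one, hH] at h6
    apply mul_right_cancel₀ (one_sub_ne hKpos)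
    rw [h6]
    ring
  · intro hodd
    rw [← hK, hKm] at h6
    have hr : Odd r := by
      rw [Nat.odd_add] at hodd
      exact hodd.2 even_two
    have e1 : Even (r + 1) := hr.add_one
    have e2 : ¬ Even (r + 2) := Nat.not_even_iff_odd.2 hodd
    have e3 : Even (r + 3) := hodd.add_one
    unfold sg at h6
    rw [if_pos e1, if_neg e2, if_neg e2, if_pos e3, one_mul, mul_one, hH] at h6
    apply mul_right_cancel₀ (one_sub_ne hKpos)
    rw [← h6]
    ring

end Pool.Agent.TH943.IP
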